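import Pool.Agent.H33.HH.TD
import Pool.Agent.H3.CV.GC

/-!
# LOW: half of all the characters of one field (MP_347b49_nt)
-/

set_option autoImplicit false

open NumberField Complex Filter Topology MeasureTheory
open scoped ContDiff nonZeroDivisors

namespace Pool.Agent.H54.HH

open Pool.Agent.H33.HH Pool.Agent.H28.RC Pool.Agent.H37.CV
open Pool.Agent.H3.CV (nm_mul)

section

variable {K : Type} [Field K] [NumberField K]

theorem lw_np (P : PrI K) : 2 ≤ np P := by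
  unfold np nm
  have h0 : Ideal.absNorm P.1 ≠ 0 := fun h => P.2.2 (Ideal.absNorm_eq_zero_iff.1 h)
  have h1 : Ideal.absNorm P.1 ≠ 1 := fun h => P.2.1.ne_top (Ideal.absNorm_eq_one_iff.1 h)
  have h2 : 2 ≤ Ideal.absNorm P.1 := by omega
  exact_mod_cast h2

theorem lw_nm {I : Ideal (𝓞 K)} (h : I ≠ ⊥) : 1 ≤ nm I := by
  unfold nm
  have h0 : Ideal.absNorm I ≠ 0 := fun h' => h (Ideal.absNorm_eq_zero_iff.1 h')
  have h1 : 1 ≤ Ideal.absNorm I := by omega
  exact_mod_cast h1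

theorem lw_fin (x : ℝ) : {I : NI K | nm I.1 ≤ x}.Finite := by
  refine Set.Finite.of_finite_image (f := Subtype.val) ?_ Subtype.val_injective.injOn
  refine (Ideal.finite_setOfPred_absNorm_le (S := 𝓞 K) ⌊x⌋₊).subset ?_
  rintro _ ⟨P, hP, rfl⟩
  have h1 : nm P.1 ≤ x := hP
  unfold nm at h1
  exact Nat.le_floor h1

theorem lw_rk (P : ℝ) : 0 ≤ hc K / wu K * rk K P := by
  unfold rk rh hc wu sd
  refine mul_nonneg (by positivity) (mul_nonneg (by positivity) (Finset.prod_nonneg fun p _ => ?_))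
  have h1 := lw_np p
  rw [sub_nonneg, div_le_one (by linarith)]
  linarith

/-- the non-vanishing characters with conductors `k q` -/
theorem lw_count (hFAC : T_FAC) (P x : ℝ) (W : ℝ → ℝ) (hW : IsW W) (X : Finset (Ideal (𝓞 K)))
    (hX : ∀ k ∈ X, Sm' P k) (hfin : (Al K x).Finite) :
    ∑ k ∈ X, (sumC P fun q => W (nm q / (x / nm k)) *
      ({χ : RCC K | χ ∈ Pr K (k * q) ∧ NV χ}.ncard : ℝ)) ≤
      ({χ : RCC K | χ ∈ Al K x ∧ NV χ}.ncard : ℝ) := by
  classical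
  have hAf : {χ : RCC K | χ ∈ Al K x ∧ NV χ}.Finite := hfin.subset fun χ hχ => hχ.1
  obtain ⟨A, hA⟩ : ∃ A : Finset (RCC K), ∀ χ, χ ∈ A ↔ χ ∈ Al K x ∧ NV χ :=
    ⟨hAf.toFinset, fun χ => by simp⟩
  obtain ⟨N, hN⟩ : ∃ N : Finset (NI K), ∀ q, q ∈ N ↔ nm q.1 ≤ x :=
    ⟨(lw_fin x).toFinset, fun q => by simp⟩
  have hcardA : ({χ : RCC K | χ ∈ Al K x ∧ NV χ}.ncard : ℝ) = A.card := by
    rw [← Set.ncard_coe_finset]
    congr 2
    ext χ
    exact (hA χ).symm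
  obtain ⟨B, hB⟩ : ∃ B : Finset (Ideal (𝓞 K) × NI K), ∀ p, p ∈ B ↔ p.1 ∈ X ∧ p.2 ∈ N ∧
      Cp P p.2.1 ∧ nm (p.1 * p.2.1) ≤ x :=
    ⟨(X ×ˢ N).filter fun p => Cp P p.2.1 ∧ nm (p.1 * p.2.1) ≤ x, fun p => by
      rw [Finset.mem_filter, Finset.mem_product, and_assoc]⟩
  -- one `k`
  have hk : ∀ k ∈ X, (sumC P fun q => W (nm q / (x / nm k)) *
      ({χ : RCC K | χ ∈ Pr K (k * q) ∧ NV χ}.ncard : ℝ)) ≤
      ∑ q ∈ N.filter (fun q => Cp P q.1 ∧ nm (k * q.1) ≤ x),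
        (({χ ∈ A | χ.f = k * q.1} : Finset (RCC K)).card : ℝ) := by
    intro k hk
    have hk0 : 1 ≤ nm k := lw_nm (hX k hk).1
    have hzero : ∀ q : NI K, ¬ nm (k * q.1) ≤ x → W (nm q.1 / (x / nm k)) = 0 := by
      intro q hq
      by_cases hx : 0 < x
      · refine hW.high _ ?_
        rw [le_div_iff₀ (by positivity), one_mul, div_le_iff₀ (by positivity), mul_comm, ← nm_mul]
        exact (not_le.1 hq).le
      · obtain ⟨δ, hδ, h0⟩ := hW.low
        refine h0 _ ((div_nonpos_of_nonneg_of_nonpos ?_ ?_).trans hδ.le)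
        · linarith [lw_nm q.2]
        · exact div_nonpos_of_nonpos_of_nonneg (not_lt.1 hx) (by linarith)
    have hle : ∀ q : NI K, nm q.1 ≤ nm (k * q.1) := by
      intro q
      rw [nm_mul]
      nlinarith [lw_nm q.2]
    unfold sumC
    rw [tsum_eq_sum (s := N) ?_]
    · rw [Finset.sum_filter]
      refine Finset.sum_le_sum fun q _ => ?_
      by_cases h1 : Cp P q.1
      · by_cases h2 : nm (k * q.1) ≤ x
        · rw [if_pos h1, if_pos ⟨h1, h2⟩]
          have h3 : ({χ : RCC K | χ ∈ Pr K (k * q.1) ∧ NV χ}.ncard : ℝ) =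
              (({χ ∈ A | χ.f = k * q.1} : Finset (RCC K)).card : ℝ) := by
            rw [← Set.ncard_coe_finset]
            congr 2
            ext χ
            simp only [Finset.coe_filter, Set.mem_setOf_eq, hA]
            constructor
            · rintro ⟨h4, h5⟩
              have h4' : χ.f = k * q.1 := h4
              refine ⟨⟨?_, h5⟩, h4'⟩
              show nm χ.f ≤ x
              rw [h4']
              exact h2
            · rintro ⟨⟨_, h5⟩, h4⟩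
              exact ⟨h4, h5⟩
          show W (nm q.1 / (x / nm k)) * ({χ : RCC K | χ ∈ Pr K (k * q.1) ∧ NV χ}.ncard : ℝ) ≤ _
          rw [h3]
          exact mul_le_of_le_one_left (Nat.cast_nonneg _) (hW.bd _).2
        · rw [if_pos h1, if_neg fun h => h2 h.2]
          show W (nm q.1 / (x / nm k)) * _ ≤ 0
          rw [hzero q h2, zero_mul]
      · rw [if_neg h1, if_neg fun h => h1 h.1]
    · intro q hq
      rw [hN] at hq
      have h2 : ¬ nm (k * q.1) ≤ x := fun h => hq ((hle q).trans h)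
      show (if Cp P q.1 then W (nm q.1 / (x / nm k)) * _ else 0) = 0
      rw [hzero q h2, zero_mul, ite_self]
  refine (Finset.sum_le_sum hk).trans ?_
  have hsum : ∑ k ∈ X, ∑ q ∈ N.filter (fun q => Cp P q.1 ∧ nm (k * q.1) ≤ x),
      (({χ ∈ A | χ.f = k * q.1} : Finset (RCC K)).card : ℝ) =
      ∑ p ∈ B, (({χ ∈ A | χ.f = p.1 * p.2.1} : Finset (RCC K)).card : ℝ) := by
    symm
    refine Finset.sum_finset_product _ _ _ fun p => ?_
    rw [hB, Finset.mem_filter]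
  rw [hsum, hcardA]
  have hinj : Set.InjOn (fun p : Ideal (𝓞 K) × NI K => p.1 * p.2.1) B := by
    rintro ⟨k, q⟩ h1 ⟨k', q'⟩ h2 h3
    have h1' := (hB _).1 (Finset.mem_coe.1 h1)
    have h2' := (hB _).1 (Finset.mem_coe.1 h2)
    have h3' : k * q.1 = k' * q'.1 := h3
    have hk := hX k h1'.1
    have hk' := hX k' h2'.1
    obtain ⟨p₀, -, hu⟩ := hFAC K P (k * q.1) (mul_ne_zero hk.1 q.2)
    have e := (hu (k, q.1) ⟨hk, q.2, h1'.2.2.1, rfl⟩).trans
      (hu (k', q'.1) ⟨hk', q'.2, h2'.2.2.1, h3'⟩).symm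
    obtain ⟨e1, e2⟩ := Prod.mk.inj e
    exact Prod.ext e1 (Subtype.ext e2)
  have h4 : ∑ p ∈ B, (({χ ∈ A | χ.f = p.1 * p.2.1} : Finset (RCC K)).card : ℝ) =
      ((∑ v ∈ B.image (fun p => p.1 * p.2.1), ({χ ∈ A | χ.f = v} : Finset (RCC K)).card : ℕ) :
        ℝ) := by
    rw [Finset.sum_image hinj]
    push_cast
    rfl
  rw [h4]
  have h5 := Finset.sum_card_fiberwise_eq_card_filter A (B.image (fun p => p.1 * p.2.1))
    (fun χ => χ.f)
  rw [h5]
  exact_mod_cast Finset.card_filter_le _ _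

end

/-- the integral of the weight -/
theorem lw_W1 {W : ℝ → ℝ} (hW : IsW W) {δ : ℝ} (h0 : 0 < δ) (h1 : δ < 1 / 4)
    (h2 : ∀ u, 2 * δ ≤ u → u ≤ 1 - δ → W u = 1) : 1 - 4 * δ ≤ 2 * W1 W := by
  have hint : IntegrableOn (fun u => u * W u) (Set.Ioi 0) := by
    have hc : Continuous (fun u => u * W u) := continuous_id.mul hW.smooth.continuous
    have h3 : IntegrableOn (fun u => u * W u) (Set.Icc 0 1) := hc.continuousOn.integrableOn_Icc
    have h4 : IntegrableOn (fun u => u * W u) (Set.Ioi 1) :=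
      (integrableOn_zero (s := Set.Ioi (1 : ℝ))).congr_fun (fun u hu => by
        show (0 : ℝ) = u * W u
        rw [hW.high u (le_of_lt hu), mul_zero]) measurableSet_Ioi
    exact (h3.union h4).mono_set fun u hu => by
      rcases le_or_gt u 1 with h | h
      · exact Or.inl ⟨le_of_lt hu, h⟩
      · exact Or.inr h
  have h3 : ∫ u in Set.Ioc (2 * δ) (1 - δ), u * W u ≤ W1 W := by
    unfold W1
    refine setIntegral_mono_set hint ?_ ?_
    · refine (ae_restrict_mem measurableSet_Ioi).mono fun u hu => ?_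
      exact mul_nonneg (le_of_lt hu) (hW.bd u).1
    · exact Filter.Eventually.of_forall fun u hu => lt_trans (by linarith) hu.1
  have h4 : ∫ u in Set.Ioc (2 * δ) (1 - δ), u * W u = ∫ u in Set.Ioc (2 * δ) (1 - δ), u :=
    setIntegral_congr_fun measurableSet_Ioc fun u hu => by
      show u * W u = u
      rw [h2 u hu.1.le hu.2, mul_one]
  rw [h4, ← intervalIntegral.integral_of_le (by linarith), integral_id] at h3
  nlinarith

theorem pf_LOW (h1 : T_NVK) (h2 : T_UPT) (h3 : T_WEX) (h4 : T_FAC) (h5 : T_PHM) (_h6 : T_IEX) :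
    T_LOW := by
  intro K _ _ _ ε hε
  by_cases hε2 : 1 / 2 ≤ ε
  · obtain ⟨X, x₀, -, -, hx₀, hx⟩ := h2 K 0 1 one_pos
    refine ⟨x₀, hx₀, fun x hxx => ⟨(hx x hxx).1, ?_⟩⟩
    refine (mul_nonpos_of_nonpos_of_nonneg (by linarith) (Nat.cast_nonneg _)).trans
      (Nat.cast_nonneg _)
  rw [not_le] at hε2
  obtain ⟨W, hW, -, hW1⟩ := h3 (ε / 16) (by linarith) (by linarith)
  have hW2 := lw_W1 hW (by linarith) (by linarith) hW1
  have hW3 : 0 < W1 W := by linarith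
  obtain ⟨P, hP⟩ := h1 K W hW hW3 (ε / 4) (by linarith)
  obtain ⟨X, x₀, hXS, hXt, hx₀, hx⟩ := h2 K P (ε / 4) (by linarith)
  have hQ : ∀ k : Ideal (𝓞 K), ∃ Q₀ : ℝ, 1 ≤ Q₀ ∧ (k ∈ X → ∀ Q : ℝ, Q₀ ≤ Q →
      (1 / 2 - ε / 4) * A0 P Q W k ≤ sumC P fun q => W (nm q / Q) *
        ({χ : RCC K | χ ∈ Pr K (k * q) ∧ NV χ}.ncard : ℝ)) := by
    intro k
    by_cases hk : k ∈ X
    · obtain ⟨Q₀, h6, h7⟩ := hP P le_rfl k (hXS k hk)
      exact ⟨Q₀, h6, fun _ => h7⟩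
    · exact ⟨1, le_rfl, fun h => absurd h hk⟩
  choose Q₀ hQ1 hQ2 using hQ
  refine ⟨max x₀ (∑ k ∈ X, nm k * Q₀ k), hx₀.trans (le_max_left _ _), fun x hxx => ?_⟩
  obtain ⟨hfin, hup⟩ := hx x ((le_max_left _ _).trans hxx)
  refine ⟨hfin, ?_⟩
  have hx1 : 1 ≤ x := hx₀.trans ((le_max_left _ _).trans hxx)
  have hnm : ∀ k ∈ X, 1 ≤ nm k := fun k hk => lw_nm (hXS k hk).1
  have hxk : ∀ k ∈ X, Q₀ k ≤ x / nm k := by
    intro k hk
    have h6 := hnm k hk
    rw [le_div_iff₀ (by linarith), mul_comm]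
    refine (Finset.single_le_sum (f := fun k => nm k * Q₀ k) (fun k hk => ?_) hk).trans
      ((le_max_right _ _).trans hxx)
    exact mul_nonneg (by linarith [hnm k hk]) (by linarith [hQ1 k])
  have hmain := (Finset.sum_le_sum fun k hk => hQ2 k hk (x / nm k) (hxk k hk)).trans
    (lw_count h4 P x W hW X hXS hfin)
  obtain ⟨-, hph1, hph2⟩ := h5 K
  obtain ⟨Sg, hSg⟩ : ∃ Sg : ℝ, Sg = ∑ k ∈ X, phs k / nm k ^ 2 := ⟨_, rfl⟩
  have hS1 : 1 ≤ Sg := by
    rw [hSg]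
    have h6 : phs (⊤ : Ideal (𝓞 K)) / nm (⊤ : Ideal (𝓞 K)) ^ 2 = 1 := by
      rw [hph1]
      unfold nm
      simp
    rw [← h6]
    refine Finset.single_le_sum (f := fun k => phs k / nm k ^ 2) (fun k hk => ?_) hXt
    exact div_nonneg (hph2 k (hXS k hk).1).1 (by positivity)
  obtain ⟨T, hT⟩ : ∃ T : ℝ, T = hc K / wu K * rk K P * (x ^ 2 / 2) := ⟨_, rfl⟩
  have hT0 : 0 ≤ T := by
    rw [hT]
    exact mul_nonneg (lw_rk P) (by positivity)
  rw [← hT, ← hSg] at hup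
  have hA : ∑ k ∈ X, (1 / 2 - ε / 4) * A0 P (x / nm k) W k =
      (1 / 2 - ε / 4) * (2 * W1 W) * (T * Sg) := by
    rw [hSg, hT, Finset.mul_sum, Finset.mul_sum]
    refine Finset.sum_congr rfl fun k _ => ?_
    unfold A0
    rw [div_pow]
    ring
  rw [hA] at hmain
  have hTS : 0 ≤ T * Sg := mul_nonneg hT0 (by linarith)
  have e1 : (1 / 2 - ε) * ((Al K x).ncard : ℝ) ≤ (1 / 2 - ε) * (T * (Sg + ε / 4)) :=
    mul_le_mul_of_nonneg_left hup (by linarith)
  have e2 : T * (Sg + ε / 4) ≤ (1 + ε / 4) * (T * Sg) := by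
    nlinarith [mul_nonneg hT0 (sub_nonneg.2 hS1)]
  have e3 : (1 / 2 - ε) * (T * (Sg + ε / 4)) ≤ (1 / 2 - ε) * ((1 + ε / 4) * (T * Sg)) :=
    mul_le_mul_of_nonneg_left e2 (by linarith)
  have e4 : (1 / 2 - ε) * (1 + ε / 4) ≤ (1 / 2 - ε / 4) * (2 * W1 W) := by
    have e5 : (1 / 2 - ε / 4) * (1 - 4 * (ε / 16)) ≤ (1 / 2 - ε / 4) * (2 * W1 W) :=
      mul_le_mul_of_nonneg_left hW2 (by linarith)
    nlinarith
  have e6 := mul_le_mul_of_nonneg_right e4 hTS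
  linarith

end Pool.Agent.H54.HH
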